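import Pool.Agent.Run7.h222.SU.Stm

/-!
Project SU (helper222, MP_ca7eb7_al Q1), piece SELB.
-/

set_option autoImplicit false

namespace Run7.h824.SU

open Matrix Pool.Agent.H16.SUn Run7.h222.SU

theorem nrm_one {z : ℂ} (hz : star z * z = 1) : ‖z‖ = 1 := by
  have h1 : ‖star z * z‖ = 1 := by
    rw [hz]
    exact norm_one
  rw [norm_mul, norm_star] at h1
  nlinarith [norm_nonneg z]

theorem exp_arg {z : ℂ} (hz : star z * z = 1) : Complex.exp (z.arg * Complex.I) = z := by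
  have h1 := Complex.norm_mul_exp_arg_mul_I z
  rw [nrm_one hz, Complex.ofReal_one, one_mul] at h1
  exact h1

theorem star_exp (t : ℝ) : star (Complex.exp (t * Complex.I)) = Complex.exp (-(t * Complex.I)) := by
  rw [Complex.star_def, ← Complex.exp_conj, map_mul, Complex.conj_ofReal, Complex.conj_I, mul_neg]

theorem exp_re (t : ℝ) : (Complex.exp (t * Complex.I)).re = Real.cos t := by
  rw [Complex.exp_ofReal_mul_I_re]

theorem core (hW : S_W) (f y g : ℂ) (hf : star f * f = 1) (hy : star y * y = 1)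
    (hg : star g * g = 1) (hfi : 0 ≤ f.im) (hgi : g.im ≤ 0)
    (h : (y.re ≤ f.re ∧ y.re ≤ g.re) ∨ (f.re ≤ y.re ∧ g.re ≤ y.re)) :
    ∃ (e : ℂ) (w : ℝ), (e = 1 ∨ e = -1) ∧ 0 ≤ w ∧ w ≤ 1 ∧
      e * star y + 1 = w * (star y * star g + e * g) + (1 - w) * (e * f + star f * star y) := by
  obtain ⟨φ, hφ, hφ0, hφ1⟩ : ∃ φ : ℝ, f = Complex.exp (φ * Complex.I) ∧ 0 ≤ φ ∧ φ ≤ Real.pi :=
    ⟨f.arg, (exp_arg hf).symm, Complex.arg_nonneg_iff.2 hfi, Complex.arg_le_pi f⟩
  obtain ⟨γ, hγ, hγ0, hγ1⟩ : ∃ γ : ℝ, g = Complex.exp (γ * Complex.I) ∧ -Real.pi ≤ γ ∧ γ ≤ 0 := by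
    have hsg : star (star g) * star g = 1 := by
      rw [star_star, mul_comm]
      exact hg
    refine ⟨-(star g).arg, ?_, ?_, ?_⟩
    · have h1 := star_exp (star g).arg
      rw [exp_arg hsg, star_star] at h1
      refine h1.trans ?_
      congr 1
      push_cast
      ring
    · have := Complex.arg_le_pi (star g)
      linarith
    · have h1 : 0 ≤ (star g).im := by
        rw [Complex.star_def, Complex.conj_im]
        linarith
      have := Complex.arg_nonneg_iff.2 h1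
      linarith
  obtain ⟨η, hη, hη0, hη1⟩ : ∃ η : ℝ, y = Complex.exp (η * Complex.I) ∧ -Real.pi ≤ η ∧
      η ≤ Real.pi :=
    ⟨y.arg, (exp_arg hy).symm, (Complex.neg_pi_lt_arg y).le, Complex.arg_le_pi y⟩
  have hrf : f.re = Real.cos φ := by rw [hφ, exp_re]
  have hrg : g.re = Real.cos (-γ) := by rw [hγ, exp_re, Real.cos_neg]
  have hry : y.re = Real.cos |η| := by rw [hη, exp_re, Real.cos_abs]
  have habs : |η| ≤ Real.pi := abs_le.2 ⟨hη0, hη1⟩
  have hpi := Real.pi_pos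
  have cmp : ∀ s t : ℝ, 0 ≤ s → s ≤ Real.pi → 0 ≤ t → t ≤ Real.pi → Real.cos s ≤ Real.cos t →
      t ≤ s := by
    intro s t h1 h2 h3 h4 h5
    by_contra hcon
    push Not at hcon
    have := Real.cos_lt_cos_of_nonneg_of_le_pi h1 h4 hcon
    linarith
  have hsf : star f = Complex.exp (-(φ * Complex.I)) := by rw [hφ, star_exp]
  have hsg : star g = Complex.exp (-(γ * Complex.I)) := by rw [hγ, star_exp]
  have hsy : star y = Complex.exp (-(η * Complex.I)) := by rw [hη, star_exp]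
  rcases h with ⟨h1, h2⟩ | ⟨h1, h2⟩
  · rw [hry, hrf] at h1
    rw [hry, hrg] at h2
    have c1 := cmp _ _ (abs_nonneg η) habs hφ0 hφ1 h1
    have c2 := cmp _ _ (abs_nonneg η) habs (by linarith) (by linarith) h2
    have hcond : (Real.sin ((0 - φ) / 2) * Real.sin ((φ + η) / 2)) *
        (Real.sin ((0 - γ) / 2) * Real.sin ((γ + η) / 2)) ≤ 0 := by
      have s1 : Real.sin ((0 - φ) / 2) ≤ 0 :=
        Real.sin_nonpos_of_nonpos_of_neg_pi_le (by linarith) (by linarith)
      have s2 : 0 ≤ Real.sin ((0 - γ) / 2) :=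
        Real.sin_nonneg_of_nonneg_of_le_pi (by linarith) (by linarith)
      have s3 : 0 ≤ Real.sin ((φ + η) / 2) * Real.sin ((γ + η) / 2) := by
        rcases le_total 0 η with h | h
        · rw [abs_of_nonneg h] at c1 c2
          exact mul_nonneg (Real.sin_nonneg_of_nonneg_of_le_pi (by linarith) (by linarith))
            (Real.sin_nonneg_of_nonneg_of_le_pi (by linarith) (by linarith))
        · rw [abs_of_nonpos h] at c1 c2
          exact mul_nonneg_of_nonpos_of_nonpos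
            (Real.sin_nonpos_of_nonpos_of_neg_pi_le (by linarith) (by linarith))
            (Real.sin_nonpos_of_nonpos_of_neg_pi_le (by linarith) (by linarith))
      have s4 : Real.sin ((0 - φ) / 2) * Real.sin ((0 - γ) / 2) ≤ 0 :=
        mul_nonpos_of_nonpos_of_nonneg s1 s2
      nlinarith [mul_nonpos_of_nonpos_of_nonneg s4 s3]
    obtain ⟨w, hw0, hw1, hw⟩ := hW φ γ η 0 hcond
    refine ⟨1, w, Or.inl rfl, hw0, hw1, ?_⟩
    have e1 : Complex.exp (((0 : ℝ) : ℂ) * Complex.I) = 1 := by simp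
    have e2 : Complex.exp ((((0 : ℝ) : ℂ) - η - γ) * Complex.I) = star y * star g := by
      rw [hsy, hsg, ← Complex.exp_add]
      congr 1
      push_cast
      ring
    have e3 : Complex.exp ((((0 : ℝ) : ℂ) - η - φ) * Complex.I) = star f * star y := by
      rw [hsy, hsf, ← Complex.exp_add]
      congr 1
      push_cast
      ring
    rw [e1, e2, e3, ← hsy, ← hγ, ← hφ] at hw
    rw [one_mul, one_mul, one_mul, ← hw]
    ring
  · rw [hry, hrf] at h1
    rw [hry, hrg] at h2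
    have c1 := cmp _ _ hφ0 hφ1 (abs_nonneg η) habs h1
    have c2 := cmp _ _ (by linarith) (by linarith) (abs_nonneg η) habs h2
    have a1 := neg_abs_le η
    have a2 := le_abs_self η
    have hcond : (Real.sin ((Real.pi - φ) / 2) * Real.sin ((φ + η) / 2)) *
        (Real.sin ((Real.pi - γ) / 2) * Real.sin ((γ + η) / 2)) ≤ 0 := by
      have s1 : 0 ≤ Real.sin ((Real.pi - φ) / 2) :=
        Real.sin_nonneg_of_nonneg_of_le_pi (by linarith) (by linarith)
      have s2 : 0 ≤ Real.sin ((Real.pi - γ) / 2) :=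
        Real.sin_nonneg_of_nonneg_of_le_pi (by linarith) (by linarith)
      have s3 : 0 ≤ Real.sin ((φ + η) / 2) :=
        Real.sin_nonneg_of_nonneg_of_le_pi (by linarith) (by linarith)
      have s4 : Real.sin ((γ + η) / 2) ≤ 0 :=
        Real.sin_nonpos_of_nonpos_of_neg_pi_le (by linarith) (by linarith)
      exact mul_nonpos_of_nonneg_of_nonpos (mul_nonneg s1 s3)
        (mul_nonpos_of_nonneg_of_nonpos s2 s4)
    obtain ⟨w, hw0, hw1, hw⟩ := hW φ γ η Real.pi hcond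
    refine ⟨-1, w, Or.inr rfl, hw0, hw1, ?_⟩
    have e1 : Complex.exp ((Real.pi : ℂ) * Complex.I) = -1 := Complex.exp_pi_mul_I
    have e2 : Complex.exp (((Real.pi : ℂ) - η - γ) * Complex.I) = -(star y * star g) := by
      have h3 : ((Real.pi : ℂ) - η - γ) * Complex.I =
          Real.pi * Complex.I + (-(η * Complex.I) + -(γ * Complex.I)) := by ring
      rw [h3, Complex.exp_add, Complex.exp_add, e1, ← hsy, ← hsg]
      ring
    have e3 : Complex.exp (((Real.pi : ℂ) - η - φ) * Complex.I) = -(star f * star y) := by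
      have h3 : ((Real.pi : ℂ) - η - φ) * Complex.I =
          Real.pi * Complex.I + (-(η * Complex.I) + -(φ * Complex.I)) := by ring
      rw [h3, Complex.exp_add, Complex.exp_add, e1, ← hsy, ← hsf]
      ring
    rw [e1, e2, e3, ← hsy, ← hγ, ← hφ] at hw
    linear_combination -hw

theorem perm3 {n : ℕ} (a1 a2 a3 b1 b2 b3 : Fin n) (ha12 : a1 ≠ a2) (ha13 : a1 ≠ a3)
    (ha23 : a2 ≠ a3) (hb12 : b1 ≠ b2) (hb13 : b1 ≠ b3) (hb23 : b2 ≠ b3) :
    ∃ π : Equiv.Perm (Fin n), π a1 = b1 ∧ π a2 = b2 ∧ π a3 = b3 := by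
  refine ⟨((Equiv.swap a1 b1).trans (Equiv.swap (Equiv.swap a1 b1 a2) b2)).trans
    (Equiv.swap (Equiv.swap (Equiv.swap a1 b1 a2) b2 (Equiv.swap a1 b1 a3)) b3), ?_, ?_, ?_⟩
  · simp only [Equiv.trans_apply, Equiv.swap_apply_left]
    have h1 : Equiv.swap (Equiv.swap a1 b1 a2) b2 b1 = b1 := by
      refine Equiv.swap_apply_of_ne_of_ne ?_ hb12
      intro h
      have := (Equiv.swap a1 b1).injective ((Equiv.swap_apply_left a1 b1).trans h)
      exact ha12 this
    rw [h1]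
    refine Equiv.swap_apply_of_ne_of_ne ?_ hb13
    intro h
    have h2 : Equiv.swap (Equiv.swap a1 b1 a2) b2 b1 =
        Equiv.swap (Equiv.swap a1 b1 a2) b2 (Equiv.swap a1 b1 a3) := h1.trans h
    have h3 := (Equiv.swap _ _).injective h2
    have h4 := (Equiv.swap a1 b1).injective ((Equiv.swap_apply_left a1 b1).trans h3)
    exact ha13 h4
  · simp only [Equiv.trans_apply, Equiv.swap_apply_left]
    refine Equiv.swap_apply_of_ne_of_ne ?_ hb23
    intro h
    have h2 : Equiv.swap (Equiv.swap a1 b1 a2) b2 (Equiv.swap a1 b1 a2) =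
        Equiv.swap (Equiv.swap a1 b1 a2) b2 (Equiv.swap a1 b1 a3) :=
      (Equiv.swap_apply_left _ _).trans h
    have h3 := (Equiv.swap _ _).injective h2
    have h4 := (Equiv.swap a1 b1).injective h3
    exact ha23 h4
  · simp only [Equiv.trans_apply, Equiv.swap_apply_left]

theorem t_SELB : S_W → S_SELB := by
  intro hW n z hn hn4 hz hprod hul
  obtain ⟨u, l, hul, hu, hl⟩ := hul
  obtain ⟨t, htu, htl⟩ : ∃ t : Fin n, t ≠ u ∧ t ≠ l := by
    by_contra hcon
    push Not at hcon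
    have h1 : (Finset.univ : Finset (Fin n)) ⊆ {u, l} := by
      intro t _
      by_cases h : t = u
      · simp [h]
      · simp [hcon t h]
    have h2 := Finset.card_le_card h1
    have h3 : ({u, l} : Finset (Fin n)).card ≤ 2 := Finset.card_le_two
    rw [Finset.card_univ, Fintype.card_fin] at h2
    omega
  have hsel : ∃ i1 i2 i3 : Fin n, i1 ≠ i2 ∧ i1 ≠ i3 ∧ i2 ≠ i3 ∧ 0 ≤ (z i1).im ∧ (z i3).im ≤ 0 ∧
      (((z i2).re ≤ (z i1).re ∧ (z i2).re ≤ (z i3).re) ∨
        ((z i1).re ≤ (z i2).re ∧ (z i3).re ≤ (z i2).re)) := by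
    rcases le_total (z t).re (z u).re with h1 | h1 <;>
      rcases le_total (z t).re (z l).re with h2 | h2
    · exact ⟨u, t, l, htu.symm, hul, htl, hu, hl, Or.inl ⟨h1, h2⟩⟩
    · rcases le_total 0 (z t).im with h3 | h3
      · exact ⟨t, u, l, htu, htl, hul, h3, hl, Or.inr ⟨h1, h2.trans h1⟩⟩
      · exact ⟨u, l, t, hul, htu.symm, htl.symm, hu, h3, Or.inl ⟨h2.trans h1, h2⟩⟩
    · rcases le_total 0 (z t).im with h3 | h3
      · exact ⟨t, u, l, htu, htl, hul, h3, hl, Or.inl ⟨h1, h1.trans h2⟩⟩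
      · exact ⟨u, l, t, hul, htu.symm, htl.symm, hu, h3, Or.inr ⟨h1.trans h2, h2⟩⟩
    · exact ⟨u, t, l, htu.symm, hul, htl, hu, hl, Or.inr ⟨h1, h2⟩⟩
  obtain ⟨i1, i2, i3, h12, h13, h23, hf, hg, hor⟩ := hsel
  obtain ⟨e, w, he, hw0, hw1, hmain⟩ :=
    core hW (z i1) (z i2) (z i3) (hz i1) (hz i2) (hz i3) hf hg hor
  obtain ⟨j, rfl⟩ : ∃ j, n = 2 * j + 4 := ⟨(n - 4) / 2, by omega⟩
  obtain ⟨π, hπ1, hπ2, hπ3⟩ := perm3 (n := 2 * j + 4) ⟨2 * j + 1, by omega⟩ ⟨2 * j + 2, by omega⟩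
    ⟨2 * j + 3, by omega⟩ i1 i2 i3 (by simp [Fin.ext_iff]) (by simp [Fin.ext_iff])
    (by simp [Fin.ext_iff]) h12 h13 h23
  refine ⟨π, j, by omega, e, w, he, hw0, hw1, ?_⟩
  have ha : ∏ i, (fun i => z (π i)) i = 1 := by
    rw [← hprod]
    exact Equiv.prod_comp π z
  have p4 : pp (fun i => z (π i)) (2 * j + 4) = 1 := pp_n _ ha
  have s3 := pp_succ (fun i => z (π i)) (⟨2 * j + 3, by omega⟩ : Fin (2 * j + 4))
  have s2 := pp_succ (fun i => z (π i)) (⟨2 * j + 2, by omega⟩ : Fin (2 * j + 4))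
  have s1 := pp_succ (fun i => z (π i)) (⟨2 * j + 1, by omega⟩ : Fin (2 * j + 4))
  simp only [hπ1, hπ2, hπ3] at s1 s2 s3 ⊢
  rw [p4]
  have t3 : pp (fun i => z (π i)) (2 * j + 4) = pp (fun i => z (π i)) (2 * j + 3) * z i3 := s3
  have t2 : pp (fun i => z (π i)) (2 * j + 3) = pp (fun i => z (π i)) (2 * j + 2) * z i2 := s2
  have t1 : pp (fun i => z (π i)) (2 * j + 2) = pp (fun i => z (π i)) (2 * j + 1) * z i1 := s1
  obtain ⟨P, hP⟩ : ∃ P, pp (fun i => z (π i)) (2 * j + 1) = P := ⟨_, rfl⟩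
  rw [hP] at t1 ⊢
  have hall : P * z i1 * z i2 * z i3 = 1 := by
    rw [← t1, ← t2, ← t3]
    exact p4
  have hf1 := hz i1
  have hy1 := hz i2
  have hg1 := hz i3
  have hPf : P * z i1 = star (z i2) * star (z i3) := by
    calc P * z i1 = P * z i1 * (star (z i2) * z i2) * (star (z i3) * z i3) := by
          rw [hy1, hg1, mul_one, mul_one]
      _ = (P * z i1 * z i2 * z i3) * (star (z i2) * star (z i3)) := by ring
      _ = _ := by rw [hall, one_mul]
  have hPg : P * z i3 = star (z i1) * star (z i2) := by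
    calc P * z i3 = P * z i3 * (star (z i1) * z i1) * (star (z i2) * z i2) := by
          rw [hf1, hy1, mul_one, mul_one]
      _ = (P * z i1 * z i2 * z i3) * (star (z i1) * star (z i2)) := by ring
      _ = _ := by rw [hall, one_mul]
  rw [hPf, hPg]
  exact hmain

end Run7.h824.SU
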